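import Pool.Agent.Helper28.ND.Spec

/-!
# ND, part ENER: the energy identity
-/

set_option autoImplicit false

namespace Pool.Agent.Helper89.ND

open MeasureTheory Set Filter Topology
open scoped ENNReal NNReal
open Pool.Agent.Helper28.ND

noncomputable section

variable {d : ℕ}

lemma Q_subset (d : ℕ) : Q d ⊆ Icc (0 : Fin d → ℝ) 1 := by
  intro x hx
  exact ⟨fun i => (hx i (Set.mem_univ i)).1.le, fun i => (hx i (Set.mem_univ i)).2⟩

lemma measQ (d : ℕ) : MeasurableSet (Q d) :=
  MeasurableSet.univ_pi fun _ => measurableSet_Ioc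

lemma int_prod {F : ℝ × (Fin d → ℝ) → ℝ} (hF : Continuous F) (a b : ℝ) {s : Set ℝ}
    (hs : s ⊆ Icc a b) :
    Integrable F ((volume.restrict s).prod (volume.restrict (Q d))) := by
  rw [Measure.prod_restrict]
  have h : IntegrableOn F (Icc a b ×ˢ Icc (0 : Fin d → ℝ) 1) (volume.prod volume) :=
    hF.continuousOn.integrableOn_compact (isCompact_Icc.prod isCompact_Icc)
  exact h.mono_set (prod_mono hs (Q_subset d))

lemma int_Q {F : (Fin d → ℝ) → ℝ} (hF : Continuous F) : IntegrableOn F (Q d) :=
  (hF.continuousOn.integrableOn_compact isCompact_Icc).mono_set (Q_subset d)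

section calc_lemmas

variable {f : ℝ → (Fin d → ℝ) → ℝ}

lemma diff_slice (hf : ContDiff ℝ (⊤ : ℕ∞) (U f)) (t : ℝ) : ContDiff ℝ (⊤ : ℕ∞) (f t) := by
  have : f t = U f ∘ fun x => (t, x) := rfl
  rw [this]
  exact hf.comp (contDiff_const.prodMk contDiff_id)

lemma fderiv_slice (hf : ContDiff ℝ (⊤ : ℕ∞) (U f)) (t : ℝ) (x v : Fin d → ℝ) :
    fderiv ℝ (f t) x v = fderiv ℝ (U f) (t, x) (0, v) := by
  have h1 : HasFDerivAt (U f) (fderiv ℝ (U f) (t, x)) (t, x) :=
    ((hf.differentiable (by simp)) (t, x)).hasFDerivAt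
  have h2 : HasFDerivAt (fun y : Fin d → ℝ => (t, y)) (ContinuousLinearMap.inr ℝ ℝ (Fin d → ℝ)) x :=
    hasFDerivAt_prodMk_right t x
  have h3 : HasFDerivAt (f t) ((fderiv ℝ (U f) (t, x)).comp
      (ContinuousLinearMap.inr ℝ ℝ (Fin d → ℝ))) x := h1.comp x h2
  rw [h3.fderiv]
  simp

lemma smooth_pd (hf : ContDiff ℝ (⊤ : ℕ∞) (U f)) (i : Fin d) :
    ContDiff ℝ (⊤ : ℕ∞) (U fun t => pd i (f t)) := by
  have h1 : (U fun t => pd i (f t)) = fun z => fderiv ℝ (U f) z (0, Pi.single i 1) := by
    ext z
    exact fderiv_slice hf z.1 z.2 _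
  rw [h1]
  exact (hf.fderiv_right (m := (⊤ : ℕ∞)) (by simp)).clm_apply contDiff_const

lemma deriv_slice (hf : ContDiff ℝ (⊤ : ℕ∞) (U f)) (t : ℝ) (x : Fin d → ℝ) :
    HasDerivAt (fun s => f s x) (fderiv ℝ (U f) (t, x) (1, 0)) t := by
  have h1 : HasFDerivAt (U f) (fderiv ℝ (U f) (t, x)) (t, x) :=
    ((hf.differentiable (by simp)) (t, x)).hasFDerivAt
  have h2 : HasDerivAt (fun s : ℝ => (s, x)) ((1 : ℝ), (0 : Fin d → ℝ)) t :=
    (hasDerivAt_id t).prodMk (hasDerivAt_const t x)
  exact h1.comp_hasDerivAt t h2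

lemma smooth_dt (hf : ContDiff ℝ (⊤ : ℕ∞) (U f)) : ContDiff ℝ (⊤ : ℕ∞) (U (dt f)) := by
  have h1 : U (dt f) = fun z => fderiv ℝ (U f) z (1, 0) := by
    ext z
    exact (deriv_slice hf z.1 z.2).deriv
  rw [h1]
  exact (hf.fderiv_right (m := (⊤ : ℕ∞)) (by simp)).clm_apply contDiff_const

lemma per_pd {h : (Fin d → ℝ) → ℝ} (hh : Per h) (i : Fin d) : Per (pd i h) := by
  intro x k
  have e : h = fun y => h (y + fun j => (k j : ℝ)) := by
    ext y
    exact (hh y k).symm
  have h2 : fderiv ℝ (fun y => h (y + fun j => (k j : ℝ))) x =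
      fderiv ℝ h (x + fun j => (k j : ℝ)) := fderiv_comp_add_right _
  unfold pd
  rw [← e] at h2
  rw [h2]
  rfl

end calc_lemmas

theorem ener (hI : S_IBP) : S_ENER := by
  intro d f g M hf hg hM t1 t2 h12
  have hgd : ContDiff ℝ 1 (deriv g) := by
    have h2 : ContDiff ℝ (1 + 1) g := by
      have e : (1 : WithTop ℕ∞) + 1 = 2 := by norm_num
      rw [e]
      exact hg
    exact (contDiff_succ_iff_deriv.1 h2).2.2
  have hgdd : Continuous (deriv (deriv g)) := hgd.continuous_deriv le_rfl
  have hgdiff : Differentiable ℝ g := hg.differentiable (by simp)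
  have hgddiff : Differentiable ℝ (deriv g) := hgd.differentiable (by simp)
  have hMd : Continuous (deriv M) := hM.continuous_deriv le_rfl
  have hfs := hf.smooth
  have hMdiff : Differentiable ℝ M := hM.differentiable (by simp)
  have cU : Continuous (U f) := hfs.continuous
  have cdt : Continuous (U (dt f)) := (smooth_dt hfs).continuous
  have cpd : ∀ i, Continuous (U fun t => pd i (f t)) := fun i => (smooth_pd hfs i).continuous
  have cpdd : ∀ i, Continuous (U fun t => pd i (pd i (f t))) := fun i =>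
    (smooth_pd (smooth_pd hfs i) i).continuous
  -- the time part
  set h : ℝ × (Fin d → ℝ) → ℝ := fun z =>
    deriv g (U f z - M z.1) * (U (dt f) z - deriv M z.1) with hh
  have ch : Continuous h := by
    refine (hgd.continuous.comp (cU.sub (hM.continuous.comp continuous_fst))).mul
      (cdt.sub (hMd.comp continuous_fst))
  have hx : ∀ x, g (f t2 x - M t2) - g (f t1 x - M t1) = ∫ t in Ioc t1 t2, h (t, x) := by
    intro x
    rw [← intervalIntegral.integral_of_le h12]
    have h3 : ∀ t, HasDerivAt (fun t => g (f t x - M t)) (h (t, x)) t := by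
      intro t
      have e1 := deriv_slice hfs t x
      have e2 : dt f t x = fderiv ℝ (U f) (t, x) (1, 0) := e1.deriv
      have e3 := (hgdiff (f t x - M t)).hasDerivAt.comp t (e1.sub (hMdiff t).hasDerivAt)
      rw [← e2] at e3
      exact e3
    refine (intervalIntegral.integral_eq_sub_of_hasDerivAt (fun t _ => h3 t) ?_).symm
    exact (ch.comp (by fun_prop : Continuous fun t : ℝ => (t, x))).intervalIntegrable _ _
  have hL : (∫ x in Q d, g (f t2 x - M t2)) - ∫ x in Q d, g (f t1 x - M t1) =
      ∫ t in Ioc t1 t2, ∫ x in Q d, h (t, x) := by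
    have c1 : ∀ t, Continuous fun x => g (f t x - M t) := fun t =>
      hg.continuous.comp ((diff_slice hfs t).continuous.sub continuous_const)
    rw [← integral_sub (int_Q (c1 t2)) (int_Q (c1 t1))]
    have e1 : ∀ x, g (f t2 x - M t2) - g (f t1 x - M t1) = ∫ t in Ioc t1 t2, h (t, x) := hx
    simp_rw [e1]
    exact (integral_integral_swap (f := fun t x => h (t, x))
      (int_prod ch t1 t2 Ioc_subset_Icc_self)).symm
  rw [hL]
  -- the space part
  refine setIntegral_congr_fun measurableSet_Ioc fun t _ => ?_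
  -- the integrand of the divergence
  have hsm : ContDiff ℝ (⊤ : ℕ∞) (f t) := diff_slice hfs t
  have key : ∀ i : Fin d, ∫ x in Q d, (deriv g (f t x - M t) * pd i (pd i (f t)) x +
      deriv (deriv g) (f t x - M t) * (pd i (f t) x) ^ 2) = 0 := by
    intro i
    have hpi : ContDiff ℝ (⊤ : ℕ∞) (pd i (f t)) := by
      have := diff_slice (f := fun t => pd i (f t)) (smooth_pd hfs i) t
      exact this
    have hG : ContDiff ℝ 1 fun x => deriv g (f t x - M t) * pd i (f t) x :=
      (hgd.comp ((hsm.of_le (by simp)).sub contDiff_const)).mul (hpi.of_le (by simp))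
    have hper : Per fun x => deriv g (f t x - M t) * pd i (f t) x := by
      intro x k
      have e1 := hf.per t x k
      have e2 := per_pd (hf.per t) i x k
      simp only [e1, e2]
    have h0 := hI d _ hG hper i
    rw [← h0]
    refine integral_congr_ae (Eventually.of_forall fun x => ?_)
    dsimp only
    have d1 : HasFDerivAt (f t) (fderiv ℝ (f t) x) x :=
      ((hsm.differentiable (by simp)) x).hasFDerivAt
    have d2 : HasFDerivAt (pd i (f t)) (fderiv ℝ (pd i (f t)) x) x :=
      ((hpi.differentiable (by simp)) x).hasFDerivAt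
    have d3 : HasFDerivAt (fun x => deriv g (f t x - M t))
        ((deriv (deriv g) (f t x - M t)) • (fderiv ℝ (f t) x)) x := by
      have := (hgddiff (f t x - M t)).hasDerivAt.comp_hasFDerivAt x (d1.sub_const (M t))
      exact this
    have d4 : fderiv ℝ (fun x => deriv g (f t x - M t) * pd i (f t) x) x = _ := (d3.mul d2).fderiv
    have d5 : pd i (fun x => deriv g (f t x - M t) * pd i (f t) x) x =
        fderiv ℝ (fun x => deriv g (f t x - M t) * pd i (f t) x) x (Pi.single i 1) := rfl
    rw [d5, d4]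
    simp only [ContinuousLinearMap.add_apply, ContinuousLinearMap.smul_apply, smul_eq_mul]
    have d6 : fderiv ℝ (pd i (f t)) x (Pi.single i 1) = pd i (pd i (f t)) x := rfl
    have d7 : fderiv ℝ (f t) x (Pi.single i 1) = pd i (f t) x := rfl
    rw [d6, d7]
    ring
  have ckey : ∀ i : Fin d, Continuous fun x => (deriv g (f t x - M t) * pd i (pd i (f t)) x +
      deriv (deriv g) (f t x - M t) * (pd i (f t) x) ^ 2) := by
    intro i
    have e0 : Continuous fun x : Fin d → ℝ => (t, x) := by fun_prop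
    have e1 : Continuous fun x => pd i (pd i (f t)) x := (cpdd i).comp e0
    have e2 : Continuous fun x => pd i (f t) x := (cpd i).comp e0
    have e3 : Continuous fun x => f t x - M t := hsm.continuous.sub continuous_const
    exact ((hgd.continuous.comp e3).mul e1).add ((hgdd.comp e3).mul (e2.pow 2))
  have hsum : ∫ x in Q d, ∑ i, (deriv g (f t x - M t) * pd i (pd i (f t)) x +
      deriv (deriv g) (f t x - M t) * (pd i (f t) x) ^ 2) = 0 := by
    rw [integral_finsetSum _ fun i _ => int_Q (ckey i)]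
    exact Finset.sum_eq_zero fun i _ => key i
  have cht : Continuous fun x => h (t, x) := ch.comp (by fun_prop)
  rw [← add_zero (∫ x in Q d, h (t, x)), ← hsum, ← integral_add (int_Q cht)
    (int_Q (continuous_finsetSum _ fun i _ => ckey i))]
  refine integral_congr_ae (Eventually.of_forall fun x => ?_)
  simp only [hh, U, lap, Finset.sum_add_distrib, ← Finset.mul_sum]
  ring

end

end Pool.Agent.Helper89.ND
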