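import Pool.Agent.Helper89.ND.ENER

/-!
# ND, part RIESZ: a bounded functional of the test functions gives a weak gradient
-/

set_option autoImplicit false

namespace Pool.Agent.Helper89.ND

open MeasureTheory Set Filter Topology
open scoped ENNReal NNReal
open Pool.Agent.Helper28.ND

noncomputable section

variable {d : ℕ}

/-- the product measure -/
def mu (d : ℕ) (T : ℝ) : Measure (ℝ × (Fin d → ℝ)) :=
  (volume.restrict (Ioo 0 T)).prod (volume.restrict (Q d))

lemma Q_finite (d : ℕ) : volume (Q d) < ⊤ :=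
  lt_of_le_of_lt (measure_mono (Q_subset d)) isCompact_Icc.measure_lt_top

instance (d : ℕ) : IsFiniteMeasure (volume.restrict (Q d)) := ⟨by
  rw [Measure.restrict_apply_univ]
  exact Q_finite d⟩

instance (T : ℝ) : IsFiniteMeasure (volume.restrict (Ioo 0 T)) := ⟨by
  rw [Measure.restrict_apply_univ]
  exact measure_Ioo_lt_top⟩

instance (d : ℕ) (T : ℝ) : IsFiniteMeasure (mu d T) := by
  unfold mu
  infer_instance

/-- continuous functions are in `L²` -/
lemma memLp_cont {F : ℝ × (Fin d → ℝ) → ℝ} (hF : Continuous F) (T : ℝ) (p : ℝ≥0∞) :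
    MemLp F p (mu d T) := by
  obtain ⟨B, hB⟩ := (isCompact_Icc.prod isCompact_Icc : IsCompact
    (Icc (0 : ℝ) T ×ˢ Icc (0 : Fin d → ℝ) 1)).exists_bound_of_continuousOn hF.continuousOn
  refine MemLp.of_bound hF.aestronglyMeasurable B ?_
  unfold mu
  rw [Measure.prod_restrict, ae_restrict_iff' (measurableSet_Ioo.prod (measQ d))]
  refine Eventually.of_forall fun z hz => ?_
  exact hB z ⟨Ioo_subset_Icc_self hz.1, Q_subset d hz.2⟩

lemma memLp_u {u : ℝ → (Fin d → ℝ) → ℝ} {T : ℝ} (hm : Measurable (U u))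
    (h : (∫⁻ t in Ioo 0 T, ∫⁻ x in Q d, ENNReal.ofReal ((u t x) ^ 2)) < ⊤) :
    MemLp (U u) 2 (mu d T) := by
  refine ⟨hm.aestronglyMeasurable, ?_⟩
  rw [eLpNorm_lt_top_iff_lintegral_rpow_enorm_lt_top (by norm_num) (by norm_num)]
  have e : ∀ z : ℝ × (Fin d → ℝ), ‖U u z‖ₑ ^ (2 : ℝ≥0∞).toReal =
      ENNReal.ofReal ((u z.1 z.2) ^ 2) := by
    intro z
    rw [ENNReal.toReal_ofNat, Real.enorm_eq_ofReal_abs, ENNReal.ofReal_rpow_of_nonneg
      (abs_nonneg _) (by norm_num)]
    congr 1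
    rw [Real.rpow_two, sq_abs]
    rfl
  simp_rw [e]
  unfold mu
  rw [lintegral_prod]
  · exact h
  · exact ((hm.pow_const 2).ennreal_ofReal).aemeasurable

lemma isTest0_add {T : ℝ} {f g : ℝ → (Fin d → ℝ) → ℝ} (hf : IsTest0 T f) (hg : IsTest0 T g) :
    IsTest0 T (f + g) := by
  obtain ⟨⟨h1, h2⟩, e, he, h3⟩ := hf
  obtain ⟨⟨h1', h2'⟩, e', he', h3'⟩ := hg
  refine ⟨⟨h1.add h1', fun t x k => ?_⟩, min e e', lt_min he he', fun t ht x => ?_⟩
  · simp only [Pi.add_apply, h2 t x k, h2' t x k]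
  · have m1 := min_le_left e e'
    have m2 := min_le_right e e'
    simp only [Pi.add_apply]
    rw [h3 t (by rcases ht with h | h; left; linarith; right; linarith) x,
      h3' t (by rcases ht with h | h; left; linarith; right; linarith) x, add_zero]

lemma isTest0_smul {T : ℝ} (c : ℝ) {f : ℝ → (Fin d → ℝ) → ℝ} (hf : IsTest0 T f) :
    IsTest0 T (c • f) := by
  obtain ⟨⟨h1, h2⟩, e, he, h3⟩ := hf
  refine ⟨⟨h1.const_smul c, fun t x k => ?_⟩, e, he, fun t ht x => ?_⟩
  · simp only [Pi.smul_apply, h2 t x k]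
  · simp only [Pi.smul_apply, h3 t ht x, smul_zero]

lemma isTest0_zero {T : ℝ} : IsTest0 T (0 : ℝ → (Fin d → ℝ) → ℝ) :=
  ⟨⟨contDiff_const (c := (0 : ℝ)), fun t x k => rfl⟩, 1, one_pos, fun t _ x => rfl⟩

/-- the space of the test functions -/
def VT (d : ℕ) (T : ℝ) : Submodule ℝ (ℝ → (Fin d → ℝ) → ℝ) where
  carrier := {f | IsTest0 T f}
  add_mem' := isTest0_add
  zero_mem' := isTest0_zero
  smul_mem' := fun c _ hf => isTest0_smul c hf

lemma cU {T : ℝ} (f : VT d T) : Continuous (U f.1) := f.2.1.smooth.continuous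

lemma cpd {T : ℝ} (f : VT d T) (i : Fin d) : Continuous (U fun t => pd i (f.1 t)) :=
  (smooth_pd f.2.1.smooth i).continuous

lemma pd_add {T : ℝ} (f g : VT d T) (i : Fin d) (t : ℝ) (x : Fin d → ℝ) :
    pd i ((f + g).1 t) x = pd i (f.1 t) x + pd i (g.1 t) x := by
  have h1 : DifferentiableAt ℝ (f.1 t) x := (diff_slice f.2.1.smooth t).differentiable (by simp) x
  have h2 : DifferentiableAt ℝ (g.1 t) x := (diff_slice g.2.1.smooth t).differentiable (by simp) x
  have h3 : (f + g).1 t = f.1 t + g.1 t := rfl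
  unfold pd
  rw [h3, fderiv_add h1 h2]
  rfl

lemma pd_smul {T : ℝ} (c : ℝ) (f : VT d T) (i : Fin d) (t : ℝ) (x : Fin d → ℝ) :
    pd i ((c • f).1 t) x = c * pd i (f.1 t) x := by
  have h1 : DifferentiableAt ℝ (f.1 t) x := (diff_slice f.2.1.smooth t).differentiable (by simp) x
  have h3 : (c • f).1 t = c • f.1 t := rfl
  unfold pd
  rw [h3, fderiv_const_smul h1]
  rfl

/-- test functions as elements of `L²` -/
def JL (d : ℕ) (T : ℝ) : VT d T →ₗ[ℝ] Lp ℝ 2 (mu d T) where
  toFun f := (memLp_cont (cU f) T 2).toLp (U f.1)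
  map_add' f g := MemLp.toLp_add (memLp_cont (cU f) T 2) (memLp_cont (cU g) T 2)
  map_smul' c f := MemLp.toLp_const_smul c (memLp_cont (cU f) T 2)

lemma int_upd {u : ℝ → (Fin d → ℝ) → ℝ} {T : ℝ} (hu : MemLp (U u) 2 (mu d T)) (f : VT d T)
    (i : Fin d) : Integrable (fun z => U u z * U (fun t => pd i (f.1 t)) z) (mu d T) :=
  hu.integrable_mul (memLp_cont (cpd f i) T 2)

/-- the functional -/
def LL {u : ℝ → (Fin d → ℝ) → ℝ} {T : ℝ} (hu : MemLp (U u) 2 (mu d T)) (i : Fin d) :
    VT d T →ₗ[ℝ] ℝ where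
  toFun f := ∫ z, U u z * U (fun t => pd i (f.1 t)) z ∂(mu d T)
  map_add' f g := by
    rw [← integral_add (int_upd hu f i) (int_upd hu g i)]
    refine integral_congr_ae (Eventually.of_forall fun z => ?_)
    simp only [U]
    rw [pd_add]
    ring
  map_smul' c f := by
    rw [RingHom.id_apply, smul_eq_mul, ← integral_const_mul]
    refine integral_congr_ae (Eventually.of_forall fun z => ?_)
    simp only [U]
    rw [pd_smul]
    ring

lemma norm_JL {T : ℝ} (f : VT d T) :
    ‖JL d T f‖ = Real.sqrt (∫ t in Ioo 0 T, ∫ x in Q d, (f.1 t x) ^ 2) := by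
  have h1 : ‖JL d T f‖ ^ 2 = ∫ t in Ioo 0 T, ∫ x in Q d, (f.1 t x) ^ 2 := by
    rw [← real_inner_self_eq_norm_sq, L2.inner_def]
    have e1 := (memLp_cont (cU f) T 2).coeFn_toLp
    have e2 : ∫ a, inner ℝ ((JL d T f) a) ((JL d T f) a) ∂(mu d T) =
        ∫ z, (U f.1 z) ^ 2 ∂(mu d T) := by
      refine integral_congr_ae ?_
      filter_upwards [e1] with z hz
      have hz' : (JL d T f) z = U f.1 z := hz
      rw [hz']
      simp [sq]
    rw [e2]
    unfold mu
    rw [integral_prod]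
    · rfl
    · have h2 : Integrable (fun z => U f.1 z * U f.1 z) (mu d T) :=
        (memLp_cont (cU f) T 2).integrable_mul (memLp_cont (cU f) T 2)
      refine h2.congr (Eventually.of_forall fun z => ?_)
      simp only
      ring
  rw [← h1, Real.sqrt_sq (norm_nonneg _)]

theorem riesz : S_RIESZ := by
  intro d T u hT hm _ hu2 hC
  obtain ⟨C, hC⟩ := hC
  have hu : MemLp (U u) 2 (mu d T) := memLp_u hm hu2
  have hLL : ∀ (f : VT d T) (i : Fin d), LL hu i f =
      ∫ t in Ioo 0 T, ∫ x in Q d, u t x * pd i (f.1 t) x := by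
    intro f i
    have := int_upd hu f i
    unfold mu at this
    exact integral_prod _ this
  have hbd : ∀ (f : VT d T) (i : Fin d), |LL hu i f| ≤ |C| * ‖JL d T f‖ := by
    intro f i
    rw [hLL, norm_JL]
    exact (hC f.1 i f.2).trans (mul_le_mul_of_nonneg_right (le_abs_self C) (Real.sqrt_nonneg _))
  have key : ∀ i : Fin d, ∃ G : Lp ℝ 2 (mu d T), ∀ f : VT d T,
      LL hu i f = ∫ z, G z * U f.1 z ∂(mu d T) := by
    intro i
    have hker : LinearMap.ker (JL d T) ≤ LinearMap.ker (LL hu i) := by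
      intro f hf
      rw [LinearMap.mem_ker] at hf ⊢
      have := hbd f i
      rw [hf, norm_zero, mul_zero] at this
      exact abs_eq_zero.1 (le_antisymm this (abs_nonneg _))
    set L0 : LinearMap.range (JL d T) →ₗ[ℝ] ℝ :=
      ((LinearMap.ker (JL d T)).liftQ (LL hu i) hker).comp
        ((JL d T).quotKerEquivRange.symm : _ →ₗ[ℝ] _) with hL0
    have e0 : ∀ f : VT d T, L0 ⟨JL d T f, LinearMap.mem_range_self _ f⟩ = LL hu i f := by
      intro f
      have : (JL d T).quotKerEquivRange.symm ⟨JL d T f, LinearMap.mem_range_self _ f⟩ =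
          (LinearMap.ker (JL d T)).mkQ f :=
        LinearMap.quotKerEquivRange_symm_apply_image _ _ _
      simp only [hL0, LinearMap.comp_apply, LinearEquiv.coe_coe, this]
      simp
    have hb : ∀ y : LinearMap.range (JL d T), ‖L0 y‖ ≤ |C| * ‖y‖ := by
      rintro ⟨y, f, rfl⟩
      have := hbd f i
      rw [← e0 f] at this
      exact this
    obtain ⟨g, hg, -⟩ := exists_extension_norm_eq (LinearMap.range (JL d T))
      (L0.mkContinuous |C| hb)
    refine ⟨(InnerProductSpace.toDual ℝ (Lp ℝ 2 (mu d T))).symm g, fun f => ?_⟩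
    have h1 := hg ⟨JL d T f, LinearMap.mem_range_self _ f⟩
    have h2 : g (JL d T f) = LL hu i f := by
      rw [← e0 f]
      exact h1
    rw [← h2, ← InnerProductSpace.toDual_symm_apply (𝕜 := ℝ), L2.inner_def]
    refine integral_congr_ae ?_
    have e1 := (memLp_cont (cU f) T 2).coeFn_toLp
    filter_upwards [e1] with z hz
    have hz' : (JL d T f) z = U f.1 z := hz
    rw [hz']
    simp [mul_comm]
  choose G hG using key
  have hGm : ∀ i, Measurable (G i : ℝ × (Fin d → ℝ) → ℝ) := fun i =>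
    (Lp.stronglyMeasurable (G i)).measurable
  refine ⟨hu2, fun t x i => -(G i) (t, x), ?_, ?_, ?_⟩
  · exact measurable_pi_iff.2 fun i => (hGm i).neg
  · have h1 : ∀ i, ∫⁻ z, ENNReal.ofReal (((G i) z) ^ 2) ∂(mu d T) < ⊤ := by
      intro i
      have h2 := (Lp.memLp (G i)).2
      rw [eLpNorm_lt_top_iff_lintegral_rpow_enorm_lt_top (by norm_num) (by norm_num)] at h2
      have e : ∀ z : ℝ × (Fin d → ℝ), ‖(G i) z‖ₑ ^ (2 : ℝ≥0∞).toReal =
          ENNReal.ofReal (((G i) z) ^ 2) := by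
        intro z
        rw [ENNReal.toReal_ofNat, Real.enorm_eq_ofReal_abs, ENNReal.ofReal_rpow_of_nonneg
          (abs_nonneg _) (by norm_num)]
        congr 1
        rw [Real.rpow_two, sq_abs]
      simp_rw [e] at h2
      exact h2
    have h3 : ∫⁻ z, ENNReal.ofReal (∑ i, ((G i) z) ^ 2) ∂(mu d T) < ⊤ := by
      have e : ∀ z : ℝ × (Fin d → ℝ), ENNReal.ofReal (∑ i, ((G i) z) ^ 2) =
          ∑ i, ENNReal.ofReal (((G i) z) ^ 2) := fun z =>
        ENNReal.ofReal_sum_of_nonneg fun i _ => sq_nonneg _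
      simp_rw [e]
      rw [lintegral_finsetSum _ fun i _ => ((hGm i).pow_const 2).ennreal_ofReal]
      exact ENNReal.sum_lt_top.2 fun i _ => h1 i
    unfold mu at h3
    rw [lintegral_prod] at h3
    · have e : ∀ t x, (∑ i, (-(G i) (t, x)) ^ 2) = ∑ i, ((G i) (t, x)) ^ 2 := fun t x =>
        Finset.sum_congr rfl fun i _ => by ring
      simp_rw [e]
      exact h3
    · exact ((Finset.measurable_sum _ fun i _ => (hGm i).pow_const 2).ennreal_ofReal).aemeasurable
  · intro i f hf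
    have h1 := hG i ⟨f, hf⟩
    rw [hLL] at h1
    have h2 : ∫ z, (G i) z * U f z ∂(mu d T) = ∫ t in Ioo 0 T, ∫ x in Q d, (G i) (t, x) * f t x := by
      have h3 : Integrable (fun z => (G i) z * U f z) (mu d T) :=
        (Lp.memLp (G i)).integrable_mul (memLp_cont (cU ⟨f, hf⟩) T 2)
      unfold mu at h3
      exact integral_prod _ h3
    have h4 : ∫ t in Ioo 0 T, ∫ x in Q d, u t x * pd i (f t) x =
        ∫ t in Ioo 0 T, ∫ x in Q d, (G i) (t, x) * f t x := h1.trans h2
    rw [h4, ← integral_neg]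
    refine integral_congr_ae (Eventually.of_forall fun t => ?_)
    dsimp only
    rw [← integral_neg]
    refine integral_congr_ae (Eventually.of_forall fun x => ?_)
    dsimp only
    ring

end

end Pool.Agent.Helper89.ND
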